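import Pool.Agent.H91.AS5

set_option autoImplicit false

theorem Pool.Agent.Results.MP_98e33a_an.DimOne.result :
    ∀ L : ℝ → ℝ, L 0 = 0 → L 1 ∈ Set.Icc (0 : ℝ) 1 →
    (∀ n : ℕ, 1 ≤ n → ∀ x ∈ Set.Ico (1 / ((n : ℝ) + 1)) (1 / n), L x = n * (n + 1) * x - n) →
    dimH {x | x ∈ Set.Icc (0 : ℝ) 1 ∧ dimH (H91.AS.AS L (Set.Icc 0 1) x) = 1 / 2} = 1 :=
  H91.AS.lurLevel
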